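import Pool.Agent.Helper34.Riesz.Defs2

/-! Module PSI: a Schwartz bump function in the unit cube. -/

set_option autoImplicit false
open MeasureTheory Set Filter Topology
open scoped ENNReal NNReal FourierTransform SchwartzMap

namespace Helper23.Riesz

/-- the open unit cube -/
private def cubi (d : ℕ) : Set (R d) := {x | ∀ k, 0 < x k ∧ x k < 1}

private theorem isOpen_cubi (d : ℕ) : IsOpen (cubi d) := by
  have : cubi d = ⋂ k, ({x : R d | 0 < x k} ∩ {x : R d | x k < 1}) := by
    ext x; simp [cubi]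
  rw [this]
  refine isOpen_iInter_of_finite fun k => ?_
  exact (isOpen_lt continuous_const (by fun_prop)).inter (isOpen_lt (by fun_prop) continuous_const)

private theorem cubi_subset (d : ℕ) : cubi d ⊆ cubo (0 : R d) 1 := by
  intro x hx k
  have := hx k
  simp only [PiLp.zero_apply, zero_add]
  exact ⟨this.1.le, this.2⟩

private theorem null_cubo (d : ℕ) : volume (cubo (0 : R d) 1 \ cubi d) = 0 := by
  have hsub : cubo (0 : R d) 1 \ cubi d ⊆ ⋃ k : Fin d, {x : R d | x k = 0} := by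
    rintro x ⟨h1, h2⟩
    simp only [cubi, mem_ofPred_eq, not_forall] at h2
    obtain ⟨k, hk⟩ := h2
    have h := h1 k
    simp only [PiLp.zero_apply, zero_add] at h
    simp only [mem_iUnion, mem_ofPred_eq]
    refine ⟨k, le_antisymm ?_ h.1⟩
    by_contra hc
    push Not at hc
    exact hk ⟨hc, h.2⟩
  refine measure_mono_null hsub ?_
  rw [measure_iUnion_null_iff]
  intro k
  let S : Submodule ℝ (R d) := LinearMap.ker (EuclideanSpace.proj k : EuclideanSpace ℝ (Fin d) →L[ℝ] ℝ).toLinearMap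
  have hS : S ≠ ⊤ := by
    intro h
    have : (EuclideanSpace.single k (1:ℝ)) ∈ S := by rw [h]; trivial
    simp [S] at this
  have := Measure.addHaar_submodule (volume : Measure (R d)) S hS
  refine measure_mono_null ?_ this
  intro x hx
  simpa [S] using hx

private theorem bounded_cubo (d : ℕ) : Bornology.IsBounded (cubo (0 : R d) 1) := by
  refine (isBounded_iff_forall_norm_le).2 ⟨Real.sqrt d, fun x hx => ?_⟩
  rw [EuclideanSpace.norm_eq]
  refine Real.sqrt_le_sqrt ?_
  calc ∑ i, ‖x i‖ ^ 2 ≤ ∑ _i : Fin d, (1:ℝ) := by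
        refine Finset.sum_le_sum fun i _ => ?_
        have h := hx i
        simp only [PiLp.zero_apply, zero_add] at h
        rw [Real.norm_eq_abs, sq_abs]
        nlinarith [h.1, h.2]
    _ = d := by simp

theorem exists_psi (d : ℕ) (θ : ℝ) (hθ : 0 < θ) : ∃ (ψ : 𝓢(R d, ℂ)) (ψr : R d → ℝ),
    (∀ x, ψ x = (ψr x : ℂ)) ∧ (∀ x, 0 ≤ ψr x ∧ ψr x ≤ 1) ∧
    (∀ x, x ∉ cubo (0 : R d) 1 → ψr x = 0) ∧
    volume {x : R d | x ∈ cubo (0 : R d) 1 ∧ ψr x < 1} ≤ ENNReal.ofReal θ := by
  have hfin : volume (cubi d) ≠ ⊤ :=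
    (((bounded_cubo d).subset (cubi_subset d)).measure_lt_top).ne
  obtain ⟨K, hKs, hK, hKm⟩ := (isOpen_cubi d).measurableSet.exists_isCompact_sdiff_lt hfin
    (ε := ENNReal.ofReal θ) (by simpa using hθ)
  obtain ⟨f, hf0, hf1, hf⟩ := exists_contMDiffMap_zero_one_of_isClosed (n := ⊤) (I := modelWithCornersSelf ℝ (R d))
    (s := (cubi d)ᶜ) (t := K) (isOpen_cubi d).isClosed_compl hK.isClosed
    (by
      rw [Set.disjoint_left]
      intro x hx hxK
      exact hx (hKs hxK))
  have hfs : ContDiff ℝ ((⊤ : ℕ∞) : WithTop ℕ∞) (f : R d → ℝ) := f.contMDiff.contDiff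
  have hfc : HasCompactSupport (fun x : R d => ((f x : ℝ) : ℂ)) := by
    refine HasCompactSupport.intro' (K := closure (cubo (0 : R d) 1)) ?_ isClosed_closure ?_
    · exact (bounded_cubo d).isCompact_closure
    · intro x hx
      have : x ∈ (cubi d)ᶜ := fun h => hx (subset_closure (cubi_subset d h))
      simp [hf0 this]
  have hfs' : ContDiff ℝ ((⊤ : ℕ∞) : WithTop ℕ∞) (fun x : R d => ((f x : ℝ) : ℂ)) := Complex.ofRealCLM.contDiff.comp hfs
  refine ⟨hfc.toSchwartzMap hfs', f, fun x => rfl, fun x => hf x, ?_, ?_⟩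
  · intro x hx
    exact hf0 (fun h => hx (cubi_subset d h))
  · have hsub : {x : R d | x ∈ cubo (0 : R d) 1 ∧ f x < 1} ⊆
        (cubo (0 : R d) 1 \ cubi d) ∪ (cubi d \ K) := by
      rintro x ⟨h1, h2⟩
      by_cases h : x ∈ cubi d
      · refine Or.inr ⟨h, fun hxK => ?_⟩
        rw [hf1 hxK] at h2
        simp at h2
      · exact Or.inl ⟨h1, h⟩
    calc volume {x : R d | x ∈ cubo (0 : R d) 1 ∧ f x < 1}
        ≤ volume (cubo (0 : R d) 1 \ cubi d) + volume (cubi d \ K) :=
          (measure_mono hsub).trans (measure_union_le _ _)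
      _ ≤ ENNReal.ofReal θ := by rw [null_cubo, zero_add]; exact hKm.le

end Helper23.Riesz
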